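import Mathlib
import Pool.Agent.Y201.LI.Stm2

/-! # Project LI: preparations for the main divisibility -/

set_option autoImplicit false

namespace Pool.Agent.Y929.LI

open MvPolynomial Pool.Agent.TH314.PD IntermediateField Module Pool.Agent.Y201.LI

noncomputable section

/-! ### fields -/

lemma fin_of_range {K1 K2 N : Type} [Field K1] [Field K2] [Field N] [Algebra K1 N] [Algebra K2 N]
    (h : (algebraMap K1 N).range = (algebraMap K2 N).range) [FiniteDimensional K1 N] :
    FiniteDimensional K2 N ∧ finrank K2 N = finrank K1 N := by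
  let e1 : K1 ≃+* (algebraMap K1 N).range := RingEquiv.ofBijective (algebraMap K1 N).rangeRestrict
    ⟨fun a b hab => (algebraMap K1 N).injective (congrArg Subtype.val hab),
      (algebraMap K1 N).rangeRestrict_surjective⟩
  let e2 : K2 ≃+* (algebraMap K2 N).range := RingEquiv.ofBijective (algebraMap K2 N).rangeRestrict
    ⟨fun a b hab => (algebraMap K2 N).injective (congrArg Subtype.val hab),
      (algebraMap K2 N).rangeRestrict_surjective⟩
  let i : K1 ≃+* K2 := (e1.trans (RingEquiv.subringCongr h)).trans e2.symm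
  have hi : ∀ a, algebraMap K2 N (i a) = algebraMap K1 N a := by
    intro a
    have h1 : e2 (i a) = RingEquiv.subringCongr h (e1 a) := e2.apply_symm_apply _
    exact congrArg Subtype.val h1
  have hf : finrank K1 N = finrank K2 N :=
    Algebra.finrank_eq_of_equiv_equiv i (RingEquiv.refl N) (by ext a; exact hi a)
  refine ⟨?_, hf.symm⟩
  exact FiniteDimensional.of_finrank_pos (by rw [← hf]; exact finrank_pos)

lemma adj_range {Ω N : Type} [Field Ω] [Field N] [Algebra ℂ Ω] [Algebra Ω N] (S : Set Ω) (b : Ω) :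
    (algebraMap (adjoin ℂ (S ∪ {b})) N).range =
      (algebraMap ((adjoin ℂ S)⟮algebraMap Ω N b⟯) N).range := by
  ext y
  constructor
  · rintro ⟨a, rfl⟩
    have h1 : (adjoin ℂ (S ∪ {b})).toSubfield ≤
        ((adjoin ℂ S)⟮algebraMap Ω N b⟯.toSubfield).comap (algebraMap Ω N) := by
      rw [adjoin_toSubfield, Subfield.closure_le]
      rintro x (⟨c, rfl⟩ | hx | hx)
      · have hc : algebraMap ℂ Ω c ∈ adjoin ℂ S := (adjoin ℂ S).algebraMap_mem c
        exact ((adjoin ℂ S)⟮algebraMap Ω N b⟯).algebraMap_mem (⟨_, hc⟩ : adjoin ℂ S)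
      · have hc : x ∈ adjoin ℂ S := subset_adjoin ℂ S hx
        exact ((adjoin ℂ S)⟮algebraMap Ω N b⟯).algebraMap_mem (⟨_, hc⟩ : adjoin ℂ S)
      · rw [Set.mem_singleton_iff] at hx
        subst hx
        exact mem_adjoin_simple_self (adjoin ℂ S) (algebraMap Ω N x)
    have h2 : algebraMap Ω N (a : Ω) ∈ (adjoin ℂ S)⟮algebraMap Ω N b⟯ := h1 a.2
    exact ⟨⟨_, h2⟩, rfl⟩
  · rintro ⟨a, rfl⟩
    have h1 : ((adjoin ℂ S)⟮algebraMap Ω N b⟯).toSubfield ≤
        (adjoin ℂ (S ∪ {b})).toSubfield.map (algebraMap Ω N) := by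
      rw [adjoin_toSubfield, Subfield.closure_le]
      rintro x (⟨c, rfl⟩ | hx)
      · have hc : (c : Ω) ∈ adjoin ℂ (S ∪ {b}) :=
          adjoin.mono ℂ S (S ∪ {b}) Set.subset_union_left c.2
        exact ⟨c, hc, rfl⟩
      · rw [Set.mem_singleton_iff] at hx
        subst hx
        exact ⟨b, subset_adjoin ℂ _ (Set.mem_union_right _ rfl), rfl⟩
    obtain ⟨x, hx, hxa⟩ := h1 a.2
    exact ⟨⟨x, hx⟩, hxa⟩

lemma not_scaled {M : Type} [Field M] [Algebra ℂ M] (L : IntermediateField ℂ M) {t : M}
    (ht : Transcendental L t) {r : ℕ} (x : Fin r → M) (hfd : FiniteDimensional (ratioField x) M)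
    (s : M) (u' : Fin r → M) (hu : ∀ i, u' i ∈ L) (hx : ∀ i, x i = s * u' i) : False := by
  have hle : ratioField x ≤ L := by
    unfold ratioField
    rw [IntermediateField.adjoin_le_iff]
    rintro _ ⟨i, j, rfl⟩
    rw [hx, hx]
    by_cases hs : s = 0
    · rw [hs, zero_mul, zero_div]
      exact L.zero_mem
    · rw [mul_div_mul_left _ _ hs]
      exact L.div_mem (hu i) (hu j)
  apply ht
  have h1 : IsAlgebraic (ratioField x) t := Algebra.IsAlgebraic.isAlgebraic t
  let _ : Algebra (ratioField x) L := (IntermediateField.inclusion hle).toAlgebra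
  have _ : IsScalarTower (ratioField x) L M := IsScalarTower.of_algebraMap_eq fun _ => rfl
  exact h1.tower_top L

/-! ### tangent space -/

lemma tangent {M N : Type} [Field M] [Field N] [Algebra ℂ M] (am : M →+* N)
    (L : IntermediateField ℂ M) {t : M} (ht : Transcendental L t) {r d : ℕ}
    {F : MvPolynomial (Fin r) ℂ} (hF : F.IsHomogeneous d) (u w : Fin r → M) (hu : ∀ i, u i ∈ L)
    (hw : ∀ i, w i ∈ L) (h0 : aeval (fun i => t * u i + w i) F = 0) (θ : N) :
    (∑ i, am (u i) * eval₂ (am.comp (algebraMap ℂ M)) (fun j => θ * am (u j) + am (w j))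
      (pderiv i F) = 0) ∧
    (∑ i, am (w i) * eval₂ (am.comp (algebraMap ℂ M)) (fun j => θ * am (u j) + am (w j))
      (pderiv i F) = 0) := by
  classical
  let U : Fin r → Polynomial L := fun i =>
    Polynomial.C ⟨u i, hu i⟩ * Polynomial.X + Polynomial.C ⟨w i, hw i⟩
  have hG : aeval U F = 0 := by
    by_contra hne
    apply ht
    refine ⟨aeval U F, hne, ?_⟩
    have h1 := MvPolynomial.comp_aeval_apply (R := ℂ) U
      ((Polynomial.aeval t : Polynomial L →ₐ[L] M).restrictScalars ℂ) F
    have h2 : (fun i => ((Polynomial.aeval t : Polynomial L →ₐ[L] M).restrictScalars ℂ) (U i)) =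
        fun i => t * u i + w i := by
      funext i
      show Polynomial.aeval t (U i) = _
      simp only [U, map_add, map_mul, Polynomial.aeval_C, Polynomial.aeval_X]
      rw [mul_comm]
      rfl
    rw [h2, h0] at h1
    exact h1
  have hD : ∑ i, aeval U (pderiv i F) * Polynomial.C (⟨u i, hu i⟩ : L) = 0 := by
    have h1 := chain_rule ((Polynomial.derivative' : Derivation L (Polynomial L)
      (Polynomial L)).restrictScalars ℂ) U F
    rw [hG, map_zero] at h1
    rw [h1]
    refine Finset.sum_congr rfl fun i _ => ?_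
    congr 1
    show _ = Polynomial.derivative (U i)
    simp [U]
  have hE : ∑ i, U i * aeval U (pderiv i F) = 0 := by
    have h1 := congrArg (aeval U) hF.sum_X_mul_pderiv
    rw [map_sum, map_nsmul, hG, smul_zero] at h1
    simp only [map_mul, aeval_X] at h1
    exact h1
  have hW : ∑ i, Polynomial.C (⟨w i, hw i⟩ : L) * aeval U (pderiv i F) = 0 := by
    have h1 : ∑ i, U i * aeval U (pderiv i F) =
        Polynomial.X * ∑ i, aeval U (pderiv i F) * Polynomial.C (⟨u i, hu i⟩ : L) +
          ∑ i, Polynomial.C (⟨w i, hw i⟩ : L) * aeval U (pderiv i F) := by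
      rw [Finset.mul_sum, ← Finset.sum_add_distrib]
      refine Finset.sum_congr rfl fun i _ => ?_
      simp only [U]
      ring
    rw [hE, hD, mul_zero, zero_add] at h1
    exact h1.symm
  let ψ : Polynomial L →+* N := Polynomial.eval₂RingHom (am.comp (algebraMap L M)) θ
  have hψ : ∀ G : MvPolynomial (Fin r) ℂ, ψ (aeval U G) =
      eval₂ (am.comp (algebraMap ℂ M)) (fun j => θ * am (u j) + am (w j)) G := by
    intro G
    rw [aeval_def, MvPolynomial.hom_eval₂]
    congr 1
    · ext c
      show ψ (Polynomial.C (algebraMap ℂ L c)) = _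
      simp only [ψ, Polynomial.coe_eval₂RingHom, Polynomial.eval₂_C]
      rfl
    · funext j
      simp only [ψ, U, Polynomial.coe_eval₂RingHom, Polynomial.eval₂_add, Polynomial.eval₂_mul,
        Polynomial.eval₂_C, Polynomial.eval₂_X]
      rw [mul_comm]
      rfl
  constructor
  · have h1 := congrArg ψ hD
    rw [map_sum, map_zero] at h1
    rw [← h1]
    refine Finset.sum_congr rfl fun i _ => ?_
    rw [map_mul, hψ, mul_comm]
    congr 1
    simp only [ψ, Polynomial.coe_eval₂RingHom, Polynomial.eval₂_C]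
    rfl
  · have h1 := congrArg ψ hW
    rw [map_sum, map_zero] at h1
    rw [← h1]
    refine Finset.sum_congr rfl fun i _ => ?_
    rw [map_mul, hψ]
    congr 1
    simp only [ψ, Polynomial.coe_eval₂RingHom, Polynomial.eval₂_C]
    rfl

/-! ### nonvanishing -/

lemma nonvanish {M N : Type} [Field M] [Field N] [Algebra ℂ M] [Algebra M N] {r : ℕ}
    (Φ : Fin r → MvPolynomial (Fin r) ℂ) (hΦ : Bpf ∅ Φ) (u w : Fin r → M) (hu0 : u ≠ 0)
    (V1 V2 : Fin r → N) (hAI : AlgebraicIndependent M (Sum.elim V2 V1)) (θ : N)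
    (hθ0 : (fun j => θ * algebraMap M N (u j) + algebraMap M N (w j)) ≠ 0)
    (hθ : ∑ i, V1 i * eval₂ ((algebraMap M N).comp (algebraMap ℂ M))
      (fun j => θ * algebraMap M N (u j) + algebraMap M N (w j)) (Φ i) = 0) :
    ∑ i, V2 i * eval₂ ((algebraMap M N).comp (algebraMap ℂ M))
      (fun j => θ * algebraMap M N (u j) + algebraMap M N (w j)) (Φ i) ≠ 0 := by
  classical
  obtain ⟨hV1, hV2⟩ := AlgebraicIndependent.sumElim_iff.1 hAI
  let R0 := Algebra.adjoin M (Set.range V1)
  let v : Fin r → R0 := fun i => ⟨V1 i, Algebra.subset_adjoin ⟨i, rfl⟩⟩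
  let φR : ℂ →+* R0 := (algebraMap M R0).comp (algebraMap ℂ M)
  let Xj : Fin r → Polynomial R0 := fun j =>
    Polynomial.X * Polynomial.C (algebraMap M R0 (u j)) + Polynomial.C (algebraMap M R0 (w j))
  let Pl : Polynomial R0 := ∑ i, Polynomial.C (v i) * eval₂ (Polynomial.C.comp φR) Xj (Φ i)
  -- the polynomial is not zero
  have hPl : Pl ≠ 0 := by
    intro h0
    have h1 : ∀ s : M, (fun j => s * u j + w j) = 0 := by
      intro s
      have h2 : Polynomial.eval (algebraMap M R0 s) Pl = 0 := by rw [h0, Polynomial.eval_zero]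
      have h3 : Polynomial.eval (algebraMap M R0 s) Pl = ∑ i, v i *
          algebraMap M R0 (eval₂ (algebraMap ℂ M) (fun j => s * u j + w j) (Φ i)) := by
        simp only [Pl]
        rw [Polynomial.eval_finsetSum]
        refine Finset.sum_congr rfl fun i _ => ?_
        rw [Polynomial.eval_mul, Polynomial.eval_C]
        congr 1
        have h4 := MvPolynomial.hom_eval₂ (Φ i) (Polynomial.C.comp φR)
          (Polynomial.evalRingHom (algebraMap M R0 s)) Xj
        have h5 := MvPolynomial.hom_eval₂ (Φ i) (algebraMap ℂ M) (algebraMap M R0)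
          (fun j => s * u j + w j)
        rw [h5]
        refine h4.trans ?_
        congr 1
        · ext c
          simp [φR]
        · funext j
          simp only [Xj, Polynomial.coe_evalRingHom, Polynomial.eval_add, Polynomial.eval_mul,
            Polynomial.eval_X, Polynomial.eval_C, Function.comp_apply, map_add, map_mul]
      rw [h3] at h2
      have h4 := congrArg (fun z : R0 => (z : N)) h2
      have h5 : ∑ i, (eval₂ (algebraMap ℂ M) (fun j => s * u j + w j) (Φ i)) • V1 i = 0 := by
        simp only [AddSubmonoidClass.coe_finsetSum, MulMemClass.coe_mul, ZeroMemClass.coe_zero]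
          at h4
        rw [← h4]
        refine Finset.sum_congr rfl fun i _ => ?_
        rw [Algebra.smul_def, mul_comm]
        rfl
      have h6 := Fintype.linearIndependent_iff.1 hV1.linearIndependent _ h5
      exact hΦ M (algebraMap ℂ M) _ (fun G hG => absurd hG (Set.notMem_empty G)) h6
    apply hu0
    funext j
    have e0 := congrFun (h1 0) j
    have e1 := congrFun (h1 1) j
    simp only [zero_mul, zero_add, one_mul, Pi.zero_apply] at e0 e1
    rw [e0, add_zero] at e1
    exact e1
  have hθalg : IsAlgebraic R0 θ := by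
    refine ⟨Pl, hPl, ?_⟩
    rw [← hθ]
    simp only [Pl, map_sum, map_mul, Polynomial.aeval_C]
    refine Finset.sum_congr rfl fun i _ => ?_
    congr 1
    have h4 := MvPolynomial.hom_eval₂ (Φ i) (Polynomial.C.comp φR)
      (Polynomial.aeval θ : Polynomial R0 →ₐ[R0] N).toRingHom Xj
    refine h4.trans ?_
    congr 1
    · ext c
      show Polynomial.aeval θ (Polynomial.C (φR c)) = _
      rw [Polynomial.aeval_C]
      rfl
    · funext j
      show Polynomial.aeval θ (Xj j) = _
      simp only [Xj, map_add, map_mul, Polynomial.aeval_C, Polynomial.aeval_X]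
      rfl
  let K1 := Subalgebra.algebraicClosure R0 N
  have hK : ∀ m : M, algebraMap M N m ∈ K1 := fun m =>
    K1.algebraMap_mem (algebraMap M R0 m)
  have hθK : θ ∈ K1 := hθalg
  have hmem : ∀ G : MvPolynomial (Fin r) ℂ, eval₂ ((algebraMap M N).comp (algebraMap ℂ M))
      (fun j => θ * algebraMap M N (u j) + algebraMap M N (w j)) G ∈ K1 := by
    intro G
    induction G using MvPolynomial.induction_on with
    | C a =>
      rw [eval₂_C]
      exact hK _
    | add p q hp hq =>
      rw [eval₂_add]
      exact K1.add_mem hp hq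
    | mul_X p j hp =>
      rw [eval₂_mul, eval₂_X]
      exact K1.mul_mem hp (K1.add_mem (K1.mul_mem hθK (hK _)) (hK _))
  intro hzero
  have hV2' : AlgebraicIndependent K1 V2 := hV2.subalgebraAlgebraicClosure
  have h6 := Fintype.linearIndependent_iff.1 hV2'.linearIndependent
    (fun i => (⟨_, hmem (Φ i)⟩ : K1)) (by
      rw [← hzero]
      refine Finset.sum_congr rfl fun i _ => ?_
      rw [mul_comm]
      rfl)
  apply hθ0
  have h7 : ∀ i, eval₂ ((algebraMap M N).comp (algebraMap ℂ M))
      (fun j => θ * algebraMap M N (u j) + algebraMap M N (w j)) (Φ i) = 0 :=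
    fun i => congrArg (fun z : K1 => (z : N)) (h6 i)
  exact hΦ N _ _ (fun G hG => absurd hG (Set.notMem_empty G)) h7

end

end Pool.Agent.Y929.LI
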