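import Mathlib
import Pool.Agent.Y929.LI.Pre

/-! # Project LI: the main divisibility (S_FA) -/

set_option autoImplicit false

namespace Pool.Agent.Y929.LI

open MvPolynomial Pool.Agent.TH314.PD IntermediateField Module Pool.Agent.Y201.LI

noncomputable section

lemma ratioField_div {M : Type} [Field M] [Algebra ℂ M] {r : ℕ} (x : Fin r → M) {a : M}
    (ha : a ≠ 0) : ratioField (fun i => x i / a) = ratioField x := by
  unfold ratioField
  congr 1
  ext z
  constructor
  · rintro ⟨i, j, rfl⟩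
    exact ⟨i, j, div_div_div_cancel_right₀ ha _ _⟩
  · rintro ⟨i, j, rfl⟩
    exact ⟨i, j, (div_div_div_cancel_right₀ ha _ _).symm⟩

lemma aeval_div {M : Type} [Field M] [Algebra ℂ M] {r e : ℕ} (x : Fin r → M) {a : M}
    (ha : a ≠ 0) {H : MvPolynomial (Fin r) ℂ} (hH : H.IsHomogeneous e) :
    aeval (fun i => x i / a) H = 0 ↔ aeval x H = 0 := by
  have h1 : aeval x H = a ^ e * aeval (fun i => x i / a) H := by
    rw [← aeval_smul_form hH]
    congr 2
    funext i
    rw [mul_div_cancel₀ _ ha]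
  rw [h1]
  constructor
  · intro h
    rw [h, mul_zero]
  · intro h
    exact (mul_eq_zero.1 h).resolve_left (pow_ne_zero _ ha)

/-- the form with coefficients `a` in the forms `Φ` -/
def comb {B K : Type} [Field B] [Field K] [Algebra B K] {r m : ℕ} (a : Fin m → K)
    (Φ : Fin m → MvPolynomial (Fin r) B) : MvPolynomial (Fin r) K :=
  ∑ i, C (a i) * map (algebraMap B K) (Φ i)

lemma comb_hom {B K : Type} [Field B] [Field K] [Algebra B K] {r m e : ℕ} (a : Fin m → K)
    {Φ : Fin m → MvPolynomial (Fin r) B} (hΦ : ∀ i, (Φ i).IsHomogeneous e) :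
    (comb a Φ).IsHomogeneous e := by
  unfold comb
  refine IsHomogeneous.sum _ _ _ fun i _ => ?_
  have h1 := (isHomogeneous_C (Fin r) (a i)).mul ((hΦ i).map (algebraMap B K))
  rw [zero_add] at h1
  exact h1

lemma aeval_comb {B K E : Type} [Field B] [Field K] [Field E] [Algebra B K] [Algebra K E]
    {r m : ℕ} (a : Fin m → K) (Φ : Fin m → MvPolynomial (Fin r) B) (y : Fin r → E) :
    aeval y (comb a Φ) =
      ∑ i, algebraMap K E (a i) * eval₂ ((algebraMap K E).comp (algebraMap B K)) y (Φ i) := by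
  unfold comb
  rw [map_sum]
  refine Finset.sum_congr rfl fun i _ => ?_
  rw [map_mul, aeval_C, aeval_def, eval₂_map]

lemma adjoin_top {Ω : Type} [Field Ω] [Algebra ℂ Ω] (S : Set Ω) (T : Set (adjoin ℂ S))
    (hT : Subtype.val '' T = S) : adjoin ℂ T = ⊤ := by
  apply IntermediateField.lift_injective
  rw [IntermediateField.lift_adjoin, IntermediateField.lift_top, hT]

lemma step_f (hpl : S_PL) (h1 : S_ONE) (h2 : S_TWO) {r d : ℕ} {F : MvPolynomial (Fin r) ℂ}
    (hF : F.IsHomogeneous d) (hΦ : Bpf ∅ (fun i => pderiv i F))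
    {Ω N : Type} [Field Ω] [Field N] [Algebra ℂ Ω] [Algebra Ω N] (v₁ v₂ v₃ : Fin r → Ω) (β₂ : Ω)
    (hAI : AlgebraicIndependent ℂ (Sum.elim (Sum.elim v₁ v₂) (Sum.elim v₃ ![β₂])))
    (y : Fin r → N)
    (e1 : ∑ i, algebraMap Ω N (v₁ i) *
      eval₂ ((algebraMap Ω N).comp (algebraMap ℂ Ω)) y (pderiv i F) = 0)
    (e2 : ∑ i, algebraMap Ω N (v₂ i) *
      eval₂ ((algebraMap Ω N).comp (algebraMap ℂ Ω)) y (pderiv i F) ≠ 0)
    (e3 : ∑ i, algebraMap Ω N (v₃ i) *
      eval₂ ((algebraMap Ω N).comp (algebraMap ℂ Ω)) y (pderiv i F) =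
        algebraMap Ω N β₂ * ∑ i, algebraMap Ω N (v₂ i) *
          eval₂ ((algebraMap Ω N).comp (algebraMap ℂ Ω)) y (pderiv i F))
    (hfin : FiniteDimensional
      (adjoin ℂ (Set.range v₁ ∪ Set.range v₂ ∪ Set.range v₃))⟮algebraMap Ω N β₂⟯ N) :
    (d - 1) ^ 2 ∣
      finrank (adjoin ℂ (Set.range v₁ ∪ Set.range v₂ ∪ Set.range v₃))⟮algebraMap Ω N β₂⟯ N := by
  classical
  have hm1 : ∀ i, v₁ i ∈ adjoin ℂ (Set.range v₁ ∪ Set.range v₂ ∪ Set.range v₃) := fun i =>
    subset_adjoin ℂ _ (Or.inl (Or.inl ⟨i, rfl⟩))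
  have hm2 : ∀ i, v₂ i ∈ adjoin ℂ (Set.range v₁ ∪ Set.range v₂ ∪ Set.range v₃) := fun i =>
    subset_adjoin ℂ _ (Or.inl (Or.inr ⟨i, rfl⟩))
  have hm3 : ∀ i, v₃ i ∈ adjoin ℂ (Set.range v₁ ∪ Set.range v₂ ∪ Set.range v₃) := fun i =>
    subset_adjoin ℂ _ (Or.inr ⟨i, rfl⟩)
  let w₁ : Fin r → adjoin ℂ (Set.range v₁ ∪ Set.range v₂ ∪ Set.range v₃) := fun i => ⟨v₁ i, hm1 i⟩
  let w₂ : Fin r → adjoin ℂ (Set.range v₁ ∪ Set.range v₂ ∪ Set.range v₃) := fun i => ⟨v₂ i, hm2 i⟩
  let w₃ : Fin r → adjoin ℂ (Set.range v₁ ∪ Set.range v₂ ∪ Set.range v₃) := fun i => ⟨v₃ i, hm3 i⟩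
  have hr1 : Subtype.val '' Set.range w₁ = Set.range v₁ := by
    rw [← Set.range_comp]
    rfl
  have hr2 : Subtype.val '' Set.range w₂ = Set.range v₂ := by
    rw [← Set.range_comp]
    rfl
  have hr3 : Subtype.val '' Set.range w₃ = Set.range v₃ := by
    rw [← Set.range_comp]
    rfl
  have htop2 : adjoin ℂ (Set.range w₁ ∪ Set.range w₂ ∪ Set.range w₃) = ⊤ := by
    apply adjoin_top
    rw [Set.image_union, Set.image_union, hr1, hr2, hr3]
  have htop1 : adjoin ℂ (Set.range w₁ ∪ Set.range (Sum.elim w₂ w₃)) = ⊤ := by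
    rw [Set.Sum.elim_range, ← Set.union_assoc]
    exact htop2
  have hAI2 : AlgebraicIndependent ℂ (Sum.elim (Sum.elim w₁ w₂) w₃) := by
    refine AlgebraicIndependent.of_comp
      (adjoin ℂ (Set.range v₁ ∪ Set.range v₂ ∪ Set.range v₃)).val ?_
    have h3 := hAI.comp (Sum.map id Sum.inl : (Fin r ⊕ Fin r) ⊕ Fin r → _)
      (Sum.map_injective.2 ⟨Function.injective_id, Sum.inl_injective⟩)
    convert h3 using 1
    funext i
    rcases i with (i | i) | i <;> rfl
  have hAI1 : AlgebraicIndependent ℂ (Sum.elim w₁ (Sum.elim w₂ w₃)) := by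
    have h3 := hAI2.comp (Equiv.sumAssoc (Fin r) (Fin r) (Fin r)).symm (Equiv.injective _)
    convert h3 using 1
    funext i
    rcases i with i | i | i <;> rfl
  have hch : CharZero (adjoin ℂ (Set.range v₁ ∪ Set.range v₂ ∪ Set.range v₃)) :=
    charZero_of_injective_algebraMap (algebraMap ℂ _).injective
  have hhom : ∀ i, (pderiv i F).IsHomogeneous (d - 1) := fun i => hF.pderiv
  have hf : Transcendental (adjoin ℂ (Set.range v₁ ∪ Set.range v₂ ∪ Set.range v₃))
      (algebraMap Ω N β₂) := by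
    rw [transcendental_algebraMap_iff (algebraMap Ω N).injective,
      IntermediateField.transcendental_adjoin_iff, ← Set.Sum.elim_range, ← Set.Sum.elim_range]
    have h3 : AlgebraicIndependent ℂ (Sum.elim ![β₂] (Sum.elim (Sum.elim v₁ v₂) v₃)) := by
      have h4 := hAI.comp (Sum.elim (fun i => Sum.inr (Sum.inr i)) (Sum.map id Sum.inl) :
        Fin 1 ⊕ ((Fin r ⊕ Fin r) ⊕ Fin r) → _) (by
          rintro (a | (a | a) | a) (b | (b | b) | b) hab <;> simp_all)
      convert h4 using 1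
      funext i
      rcases i with i | (i | i) | i <;> rfl
    have h4 := (AlgebraicIndependent.sumElim_iff.1 h3).2
    exact algebraicIndependent_iff_transcendental.1 h4
  have hev : ∀ (a : Fin r → adjoin ℂ (Set.range v₁ ∪ Set.range v₂ ∪ Set.range v₃)),
      aeval y (comb a fun i => pderiv i F) = ∑ i, algebraMap Ω N (a i : Ω) *
        eval₂ ((algebraMap Ω N).comp (algebraMap ℂ Ω)) y (pderiv i F) := fun a =>
    aeval_comb a _ y
  refine hpl _ N r (d - 1) y (comb w₃ fun i => pderiv i F) (comb w₂ fun i => pderiv i F)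
    (algebraMap Ω N β₂) (comb_hom _ hhom) (comb_hom _ hhom) hf hfin ?_ ?_ (d - 1) ((d - 1) ^ 2)
    (by rw [sq]) ?_
  · rw [hev]
    exact e2
  · rw [hev, hev]
    exact e3
  · intro κ _ _ _ z hz hzG
    have h5 : aeval z (comb w₁ fun i => pderiv i F) = 0 := by
      refine hzG (d - 1) _ (comb_hom _ hhom) ?_
      rw [hev]
      exact e1
    rw [aeval_comb] at h5
    constructor
    · exact h1 ℂ r (d - 1) r ∅ (fun i => pderiv i F) (fun G hG => absurd hG (Set.notMem_empty G))
        hhom hΦ (Fin r ⊕ Fin r) _ κ w₁ (Sum.elim w₂ w₃) hAI1 htop1 z hz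
        (fun G hG => absurd hG (Set.notMem_empty G)) h5
    · intro hP hQ
      rw [aeval_comb] at hP hQ
      exact h2 ℂ r (d - 1) r ∅ (fun i => pderiv i F) (fun G hG => absurd hG (Set.notMem_empty G))
        hhom hΦ (Fin r) _ κ w₁ w₂ w₃ hAI2 htop2 z hz
        (fun G hG => absurd hG (Set.notMem_empty G)) h5 hQ

theorem fa (hpl : S_PL) (h1 : S_ONE) (h2 : S_TWO) (hdg : S_DG) (hb : S_BPF) : S_FA := by
  classical
  intro r d F hF hd hirr hsm M Ω N _ _ _ _ _ _ _ _ _ L t ht u w hu hw h0 hfd hker v₁ v₂ γ β₁ β₂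
    hAI htop θ hθ
  have hΦ : Bpf ∅ (fun i => pderiv i F) := hb r F hsm d hF
  -- the point is not zero
  obtain ⟨j0, hj0⟩ : ∃ j, t * u j + w j ≠ 0 := by
    by_contra hcon
    push Not at hcon
    exact not_scaled L ht _ hfd 0 (fun _ => 0) (fun _ => L.zero_mem) fun i => by
      rw [hcon i, mul_zero]
  have hu0 : u ≠ 0 := by
    intro hcon
    refine not_scaled L ht _ hfd 1 w hw fun i => ?_
    rw [hcon, Pi.zero_apply, mul_zero, zero_add, one_mul]
  -- normalize
  let x' : Fin r → M := fun i => (t * u i + w i) / (t * u j0 + w j0)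
  have hrat : ratioField x' = ratioField fun i => t * u i + w i := ratioField_div _ hj0
  have hfd' : FiniteDimensional (ratioField x') M := by
    rw [hrat]
    exact hfd
  have hx'F : aeval x' F = 0 := (aeval_div _ hj0 hF).2 h0
  have hx'1 : ∃ j, x' j = 1 := ⟨j0, div_self hj0⟩
  have hker' : ∀ (e : ℕ) (H : MvPolynomial (Fin r) ℂ), H.IsHomogeneous e → aeval x' H = 0 →
      F ∣ H := fun e H hH h3 => hker e H hH ((aeval_div _ hj0 hH).1 h3)
  let v₃ : Fin r → Ω := fun i => γ * algebraMap M Ω (x' i) + β₁ * v₁ i + β₂ * v₂ i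
  obtain ⟨hAI3, hfdA, hrk⟩ := hdg r d F hF (by omega) hirr M Ω x' hx'F hx'1 hker' v₁ v₂ v₃ γ β₁ β₂
    hAI htop fun i => rfl
  rw [hrat] at hrk
  -- the point over N
  let _ : Algebra M N := ((algebraMap Ω N).comp (algebraMap M Ω)).toAlgebra
  have _ : IsScalarTower M Ω N := IsScalarTower.of_algebraMap_eq fun _ => rfl
  have hφ : (algebraMap Ω N).comp (algebraMap ℂ Ω) = (algebraMap M N).comp (algebraMap ℂ M) := by
    rw [IsScalarTower.algebraMap_eq ℂ M Ω]
    rfl
  let y : Fin r → N := fun j => θ * algebraMap M N (u j) + algebraMap M N (w j)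
  have hy : (fun j => θ * algebraMap Ω N (algebraMap M Ω (u j)) +
      algebraMap Ω N (algebraMap M Ω (w j))) = y := rfl
  rw [hφ, hy] at hθ
  obtain ⟨ht1, ht2⟩ := tangent (algebraMap M N) L ht hF u w hu hw h0 θ
  change ∑ i, algebraMap M N (u i) * eval₂ ((algebraMap M N).comp (algebraMap ℂ M)) y
    (pderiv i F) = 0 at ht1
  change ∑ i, algebraMap M N (w i) * eval₂ ((algebraMap M N).comp (algebraMap ℂ M)) y
    (pderiv i F) = 0 at ht2
  have hx'0 : ∑ i, algebraMap Ω N (algebraMap M Ω (x' i)) *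
      eval₂ ((algebraMap M N).comp (algebraMap ℂ M)) y (pderiv i F) = 0 := by
    have h3 : ∀ i, algebraMap Ω N (algebraMap M Ω (x' i)) *
        eval₂ ((algebraMap M N).comp (algebraMap ℂ M)) y (pderiv i F) =
        (algebraMap M N (t * u j0 + w j0))⁻¹ * (algebraMap M N t * (algebraMap M N (u i) *
          eval₂ ((algebraMap M N).comp (algebraMap ℂ M)) y (pderiv i F)) +
          algebraMap M N (w i) *
            eval₂ ((algebraMap M N).comp (algebraMap ℂ M)) y (pderiv i F)) := by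
      intro i
      have h4 : algebraMap Ω N (algebraMap M Ω (x' i)) =
          (algebraMap M N (t * u j0 + w j0))⁻¹ *
            (algebraMap M N t * algebraMap M N (u i) + algebraMap M N (w i)) := by
        change algebraMap M N (x' i) = _
        simp only [x']
        rw [map_div₀, map_add (algebraMap M N) (t * u i), map_mul, div_eq_inv_mul]
      rw [h4]
      ring
    rw [Finset.sum_congr rfl fun i _ => h3 i, ← Finset.mul_sum, Finset.sum_add_distrib,
      ← Finset.mul_sum, ht1, ht2, mul_zero, add_zero, mul_zero]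
  have hy0 : y ≠ 0 := by
    intro hcon
    obtain ⟨j1, hj1⟩ : ∃ j, u j ≠ 0 := by
      by_contra h3
      push Not at h3
      exact hu0 (funext h3)
    have hj1' : algebraMap M N (u j1) ≠ 0 := (map_ne_zero _).2 hj1
    have hyj : ∀ j, θ * algebraMap M N (u j) + algebraMap M N (w j) = 0 := fun j =>
      congrFun hcon j
    have hθ1 : θ = algebraMap M N (-(w j1 / u j1)) := by
      rw [map_neg, map_div₀, eq_comm, ← neg_div, div_eq_iff hj1', eq_comm]
      exact eq_neg_of_add_eq_zero_left (hyj j1)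
    have h4 : ∀ j, -(w j1 / u j1) * u j + w j = 0 := by
      intro j
      have h5 := hyj j
      rw [hθ1, ← map_mul, ← map_add] at h5
      exact (map_eq_zero _).1 h5
    refine not_scaled L ht _ hfd (t + w j1 / u j1) u hu fun i => ?_
    linear_combination h4 i
  -- the three combinations
  have e1 : ∑ i, algebraMap Ω N (v₁ i) *
      eval₂ ((algebraMap Ω N).comp (algebraMap ℂ Ω)) y (pderiv i F) = 0 := by
    rw [hφ]
    exact hθ
  have e2 : ∑ i, algebraMap Ω N (v₂ i) *
      eval₂ ((algebraMap Ω N).comp (algebraMap ℂ Ω)) y (pderiv i F) ≠ 0 := by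
    rw [hφ]
    refine nonvanish (fun i => pderiv i F) hΦ u w hu0 (fun i => algebraMap Ω N (v₁ i))
      (fun i => algebraMap Ω N (v₂ i)) ?_ θ hy0 hθ
    have h3 := (hAI.comp (Sum.elim (fun i => Sum.inl (Sum.inr i)) (fun i => Sum.inl (Sum.inl i)) :
      Fin r ⊕ Fin r → _) (by
        rintro (a | a) (b | b) hab <;> simp_all)).map'
      (f := IsScalarTower.toAlgHom M Ω N) (algebraMap Ω N).injective
    convert h3 using 1
    funext i
    rcases i with i | i <;> rfl
  have e3 : ∑ i, algebraMap Ω N (v₃ i) *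
      eval₂ ((algebraMap Ω N).comp (algebraMap ℂ Ω)) y (pderiv i F) =
        algebraMap Ω N β₂ * ∑ i, algebraMap Ω N (v₂ i) *
          eval₂ ((algebraMap Ω N).comp (algebraMap ℂ Ω)) y (pderiv i F) := by
    rw [hφ]
    have h3 : ∀ i, algebraMap Ω N (v₃ i) *
        eval₂ ((algebraMap M N).comp (algebraMap ℂ M)) y (pderiv i F) =
        algebraMap Ω N γ * (algebraMap Ω N (algebraMap M Ω (x' i)) *
          eval₂ ((algebraMap M N).comp (algebraMap ℂ M)) y (pderiv i F)) +
        algebraMap Ω N β₁ * (algebraMap Ω N (v₁ i) *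
          eval₂ ((algebraMap M N).comp (algebraMap ℂ M)) y (pderiv i F)) +
        algebraMap Ω N β₂ * (algebraMap Ω N (v₂ i) *
          eval₂ ((algebraMap M N).comp (algebraMap ℂ M)) y (pderiv i F)) := by
      intro i
      simp only [v₃]
      rw [map_add, map_add, map_mul, map_mul, map_mul]
      ring
    rw [Finset.sum_congr rfl fun i _ => h3 i, Finset.sum_add_distrib, Finset.sum_add_distrib,
      ← Finset.mul_sum, ← Finset.mul_sum, ← Finset.mul_sum, hx'0, hθ, mul_zero, mul_zero,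
      zero_add, zero_add]
  -- degrees
  have hfdN : FiniteDimensional
      (adjoin ℂ (Set.range v₁ ∪ Set.range v₂ ∪ Set.range v₃ ∪ {β₂})) N :=
    FiniteDimensional.trans _ Ω N
  have hmul : finrank (adjoin ℂ (Set.range v₁ ∪ Set.range v₂ ∪ Set.range v₃ ∪ {β₂})) Ω *
      finrank Ω N = finrank (adjoin ℂ (Set.range v₁ ∪ Set.range v₂ ∪ Set.range v₃ ∪ {β₂})) N :=
    Module.finrank_mul_finrank _ _ _
  obtain ⟨hfin, hrk2⟩ := fin_of_range
    (adj_range (N := N) (Set.range v₁ ∪ Set.range v₂ ∪ Set.range v₃) β₂)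
  have hfinal := step_f hpl h1 h2 hF hΦ v₁ v₂ v₃ β₂ hAI3 y e1 e2 e3 hfin
  rw [hrk2, ← hmul, hrk, mul_comm] at hfinal
  exact hfinal

end

end Pool.Agent.Y929.LI
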